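import Pool.Agent.Lib.UCY.Defs

/-!
# UCY: from paths to derivations
-/

set_option autoImplicit false

namespace Pool.Agent.Lib.UCY

open Pool.Agent.Lib.UCX

theorem sound1 {G : Grammar} {P : Set G.V} {l : List (Edge G)} {q : St G} (h : EPath G P l q) :
    ∀ m n, Run G m [some (fst' q, stk l)] n → Run G (pp l ++ m) [some (G.start, [])] n := by
  induction h with
  | nil => intro m n hm; exact hm
  | @cons w e hv _ ih =>
    intro m n hm
    have key : Run G (elb e ++ m) [some (fst' (esrc e), stk w)] n := by
      cases e with
      | unitY A B b => exact Run.ctx hv.1 hm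
      | unitX A B C b => exact Run.ctx hv.1 hm
      | pushY A B f b => exact Run.push hv hm
      | stop A B f C α b => exact Run.push hv.1 hm
      | step A B f C α C' b => exact Run.push hv.1 hm
      | stopC A C α => exact hm
      | stepC A C α C' => exact hm
    have h1 := ih _ _ key
    have e1 : pp (e :: w) ++ m = pp w ++ (elb e ++ m) := by
      show (pp w ++ elb e) ++ m = _
      rw [List.append_assoc]
    rw [e1]; exact h1

private theorem fill0 {G : Grammar} (σ : List G.I) (C : G.V) (α : List (Sym G.V)) (hn : nvar α = 0) :
    Run G [] (inst σ α) (nzero α) := by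
  have h1 := fill (G := G) σ C α (fun s hs => Or.inl (all_zero α hn s hs)) [] (by simp [hn]) (by simp)
  simpa using h1

private theorem fillk {G : Grammar} (σ : List G.I) (C : G.V) (α : List (Sym G.V))
    (hs : ∀ s ∈ α, s = Sym.zero ∨ s = Sym.var C) {m : List (Prd G)} {n : ℕ} (h0 : Run G m [some (C, σ)] n) :
    Run G (List.replicate (nvar α) m).flatten (inst σ α) (nvar α * n + nzero α) := by
  have h1 := fill (G := G) σ C α hs (List.replicate (nvar α) (m, n)) (by simp)
    (by
      intro x hx
      rw [(List.mem_replicate.1 hx).2]
      exact h0)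
  simpa using h1

theorem sound2 {G : Grammar} {P : Set G.V} {l : List (Edge G)} {q : St G} (h : EPath G P l q) :
    ∀ D B b, q = Sum.inr (D, B, b) → Run G (rr l) [some (B, stk l)] (eval l) := by
  induction h with
  | nil => intro D B b h; cases h
  | @cons w e hv _ ih =>
    intro D B b hq
    cases e with
    | unitY A B' c => cases hq
    | pushY A B' f c => cases hq
    | unitX A B' C c =>
      cases hq
      have h1 := ih A B c rfl
      have e1 : eval (Edge.unitX A D B c :: w) = eval w := by
        show 1 * eval w + 0 = eval w
        rw [one_mul, add_zero]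
      rw [e1]; exact h1
    | stop A B' f C α c =>
      cases hq
      obtain ⟨-, hp, hn⟩ := hv
      have e1 : eval (Edge.stop A D f B α c :: w) = nzero α := by
        show 0 * eval w + nzero α = nzero α
        rw [zero_mul, zero_add]
      rw [e1]
      refine Run.pop hp ?_
      rw [List.append_nil]; exact fill0 _ B α hn
    | step A B' f C α C' c =>
      cases hq
      obtain ⟨-, hp, -, hs⟩ := hv
      have h0 := ih A C' c rfl
      refine Run.pop hp ?_
      rw [List.append_nil]; exact fillk _ C' α hs h0
    | stopC A C α =>
      cases hq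
      obtain ⟨hp, -, hn⟩ := hv
      have e1 : eval (Edge.stopC D B α :: w) = nzero α := by
        show 0 * eval w + nzero α = nzero α
        rw [zero_mul, zero_add]
      rw [e1]
      refine Run.ctx hp ?_
      rw [List.append_nil]; exact fill0 _ B α hn
    | stepC A C α C' =>
      cases hq
      obtain ⟨hp, -, -, hs⟩ := hv
      have h0 := ih D C' false rfl
      refine Run.ctx hp ?_
      rw [List.append_nil]; exact fillk _ C' α hs h0

theorem rr_nil {G : Grammar} {P : Set G.V} {l : List (Edge G)} {q : St G} (h : EPath G P l q) :
    rr l = [] ↔ ∃ x, q = Sum.inl x := by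
  induction h with
  | nil => exact ⟨fun _ => ⟨_, rfl⟩, fun _ => rfl⟩
  | @cons w e hv _ ih =>
    cases e with
    | unitY A B b => exact ⟨fun _ => ⟨_, rfl⟩, fun _ => ih.2 ⟨_, rfl⟩⟩
    | pushY A B f b => exact ⟨fun _ => ⟨_, rfl⟩, fun _ => ih.2 ⟨_, rfl⟩⟩
    | unitX A B C b =>
      refine ⟨fun h => ?_, fun h => ?_⟩
      · obtain ⟨A', hA'⟩ := ih.1 h
        cases hA'
      · obtain ⟨A', hA'⟩ := h
        cases hA'
    | stop A B f C α b =>
      refine ⟨fun h => ?_, fun h => ?_⟩
      · cases h
      · obtain ⟨A', hA'⟩ := h
        cases hA'
    | step A B f C α C' b =>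
      refine ⟨fun h => ?_, fun h => ?_⟩
      · cases h
      · obtain ⟨A', hA'⟩ := h
        cases hA'
    | stopC A C α =>
      refine ⟨fun h => ?_, fun h => ?_⟩
      · cases h
      · obtain ⟨A', hA'⟩ := h
        cases hA'
    | stepC A C α C' =>
      refine ⟨fun h => ?_, fun h => ?_⟩
      · cases h
      · obtain ⟨A', hA'⟩ := h
        cases hA'

/-- if the flag is not set, the last production of the first phase is a push -/
theorem last_push {G : Grammar} {P : Set G.V} {l : List (Edge G)} {q : St G} (h : EPath G P l q)
    (hq : flag q = false) : ∀ y A α, pp l ≠ y ++ [Prd.ctx A α] := by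
  induction h with
  | nil =>
    intro y A α h
    have := congrArg List.length h
    simp [pp] at this
  | @cons w e hv _ ih =>
    intro y A α h
    cases e with
    | unitY A' B b => cases hq
    | unitX A' B C b => cases hq
    | pushY A' B f b =>
      have h1 := List.append_inj' (show pp w ++ [Prd.push A' B f] = y ++ [Prd.ctx A α] from h) rfl
      simp at h1
    | stop A' B f C β b =>
      have h1 := List.append_inj' (show pp w ++ [Prd.push A' B f] = y ++ [Prd.ctx A α] from h) rfl
      simp at h1
    | step A' B f C β C' b =>
      have h1 := List.append_inj' (show pp w ++ [Prd.push A' B f] = y ++ [Prd.ctx A α] from h) rfl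
      simp at h1
    | stopC A' C β =>
      exact ih rfl y A α ((List.append_nil (pp w)).symm.trans h)
    | stepC A' C β C' =>
      exact ih rfl y A α ((List.append_nil (pp w)).symm.trans h)

end Pool.Agent.Lib.UCY
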