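import Pool.Agent.Lib.UCY.Snd

/-!
# UCY: the path can be read off from the derivation
-/

set_option autoImplicit false

namespace Pool.Agent.Lib.UCY

open Pool.Agent.Lib.UCX

theorem epath_end {G : Grammar} {P : Set G.V} {l : List (Edge G)} {q q' : St G} (h : EPath G P l q)
    (h' : EPath G P l q') : q = q' := by
  cases h with
  | nil => cases h'; rfl
  | cons e hv hw => cases h'; rfl

private theorem cons_inv {G : Grammar} {P : Set G.V} {e : Edge G} {t : List (Edge G)} {q : St G}
    (h : EPath G P (e :: t) q) : Valid G P e ∧ EPath G P t (esrc e) := by
  cases h with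
  | cons _ hv hw => exact ⟨hv, hw⟩

private theorem rr_inl {G : Grammar} {P : Set G.V} {t : List (Edge G)} {x : G.V × Bool}
    (h : EPath G P t (Sum.inl x)) : rr t = [] := (rr_nil h).2 ⟨x, rfl⟩

private theorem rr_inr {G : Grammar} {P : Set G.V} {t : List (Edge G)} {p : G.V × G.V × Bool}
    (h : EPath G P t (Sum.inr p)) : rr t ≠ [] := by
  intro h0
  obtain ⟨A, hA⟩ := (rr_nil h).1 h0
  cases hA

private theorem flat_inj {T : Type} (k : ℕ) (hk : 1 ≤ k) (a b : List T)
    (h : (List.replicate k a).flatten = (List.replicate k b).flatten) : a = b := by
  obtain ⟨k, rfl⟩ := Nat.exists_eq_add_of_le' hk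
  have h1 := congrArg List.length h
  simp only [List.length_flatten, List.map_replicate, List.sum_replicate, smul_eq_mul] at h1
  have h2 : a.length = b.length := Nat.eq_of_mul_eq_mul_left (by omega) h1
  rw [List.replicate_succ, List.replicate_succ, List.flatten_cons, List.flatten_cons] at h
  exact List.append_inj_left h h2

private theorem lab {T : Type} {a b : List T} {x y : T} (h : a ++ [x] = b ++ [y]) : a = b ∧ x = y := by
  have := List.append_inj' h rfl
  exact ⟨this.1, by simpa using this.2⟩

theorem inj_enc {G : Grammar} {P : Set G.V} {l l' : List (Edge G)} {q q' : St G} (h : EPath G P l q)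
    (h' : EPath G P l' q') (hp : pp l = pp l') (hr : rr l = rr l') : l = l' := by
  induction l generalizing l' q q' with
  | nil =>
    cases l' with
    | nil => rfl
    | cons e' t' =>
      exfalso
      cases e' with
      | unitY A' B' b' => simp [pp, elb] at hp
      | unitX A' B' C' b' => simp [pp, elb] at hp
      | pushY A' B' f' b' => simp [pp, elb] at hp
      | stop A' B' f' C' a' b' => simp [pp, elb] at hp
      | step A' B' f' C' a' D' b' => simp [pp, elb] at hp
      | stopC A' C' a' => simp [rr] at hr
      | stepC A' C' a' D' => simp [rr] at hr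
  | cons e t ih =>
    cases l' with
    | nil =>
      exfalso
      cases e with
      | unitY A B b => simp [pp, elb] at hp
      | unitX A B C b => simp [pp, elb] at hp
      | pushY A B f b => simp [pp, elb] at hp
      | stop A B f C a b => simp [pp, elb] at hp
      | step A B f C a D b => simp [pp, elb] at hp
      | stopC A C a => simp [rr] at hr
      | stepC A C a D => simp [rr] at hr
    | cons e' t' =>
      obtain ⟨hv, ht⟩ := cons_inv h
      obtain ⟨hv', ht'⟩ := cons_inv h'
      cases e with
      | unitY A B b =>
        cases e' with
        | unitY A' B' b' =>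
          obtain ⟨h1, h2⟩ := lab hp
          simp only [Prd.ctx.injEq, List.cons.injEq, Sym.var.injEq, and_true] at h2
          obtain ⟨rfl, rfl⟩ := h2
          have htt := ih ht ht' h1 hr
          subst htt
          have hq := epath_end ht ht'
          simp only [esrc, Sum.inl.injEq, Prod.mk.injEq, true_and] at hq
          rw [hq]
        | unitX A' B' C' b' => exact absurd ((show rr t = rr t' from hr).symm.trans (rr_inl ht)) (rr_inr ht')
        | pushY A' B' f' b' => exact absurd (lab hp).2 (by simp)
        | stop A' B' f' C' a' b' => exact absurd (lab hp).2 (by simp)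
        | step A' B' f' C' a' D' b' => exact absurd (lab hp).2 (by simp)
        | stopC A' C' a' => simp [rr, rr_inl ht] at hr
        | stepC A' C' a' D' => simp [rr, rr_inl ht] at hr
      | unitX A B C b =>
        cases e' with
        | unitY A' B' b' => exact absurd ((show rr t = rr t' from hr).trans (rr_inl ht')) (rr_inr ht)
        | unitX A' B' C' b' =>
          obtain ⟨h1, h2⟩ := lab hp
          simp only [Prd.ctx.injEq, List.cons.injEq, Sym.var.injEq, and_true] at h2
          obtain ⟨rfl, rfl⟩ := h2
          have htt := ih ht ht' h1 hr
          subst htt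
          have hq := epath_end ht ht'
          simp only [esrc, Sum.inr.injEq, Prod.mk.injEq, true_and] at hq
          rw [hq.1, hq.2]
        | pushY A' B' f' b' => exact absurd (lab hp).2 (by simp)
        | stop A' B' f' C' a' b' => exact absurd (lab hp).2 (by simp)
        | step A' B' f' C' a' D' b' => exact absurd (lab hp).2 (by simp)
        | stopC A' C' a' => 
          have h1 : pp t' = pp t ++ [Prd.ctx A [Sym.var B]] := by
            have : pp t ++ [Prd.ctx A [Sym.var B]] = pp t' ++ [] := hp
            rw [this, List.append_nil]
          exact absurd h1 (last_push ht' rfl _ _ _)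
        | stepC A' C' a' D' => 
          have h1 : pp t' = pp t ++ [Prd.ctx A [Sym.var B]] := by
            have : pp t ++ [Prd.ctx A [Sym.var B]] = pp t' ++ [] := hp
            rw [this, List.append_nil]
          exact absurd h1 (last_push ht' rfl _ _ _)
      | pushY A B f b =>
        cases e' with
        | unitY A' B' b' => exact absurd (lab hp).2 (by simp)
        | unitX A' B' C' b' => exact absurd (lab hp).2 (by simp)
        | pushY A' B' f' b' =>
          obtain ⟨h1, h2⟩ := lab hp
          simp only [Prd.push.injEq] at h2
          obtain ⟨rfl, rfl, rfl⟩ := h2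
          have htt := ih ht ht' h1 hr
          subst htt
          have hq := epath_end ht ht'
          simp only [esrc, Sum.inl.injEq, Prod.mk.injEq, true_and] at hq
          rw [hq]
        | stop A' B' f' C' a' b' => simp [rr, rr_inl ht] at hr
        | step A' B' f' C' a' D' b' => simp [rr, rr_inl ht] at hr
        | stopC A' C' a' => simp [rr, rr_inl ht] at hr
        | stepC A' C' a' D' => simp [rr, rr_inl ht] at hr
      | stop A B f C a b =>
        cases e' with
        | unitY A' B' b' => exact absurd (lab hp).2 (by simp)
        | unitX A' B' C' b' => exact absurd (lab hp).2 (by simp)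
        | pushY A' B' f' b' => simp [rr, rr_inl ht'] at hr
        | stop A' B' f' C' a' b' =>
          obtain ⟨h1, h2⟩ := lab hp
          simp only [Prd.push.injEq] at h2
          obtain ⟨rfl, rfl, rfl⟩ := h2
          simp only [rr, List.cons.injEq, Prd.pop.injEq, and_true, true_and] at hr
          obtain ⟨rfl, rfl⟩ := hr
          have htt := ih ht ht' h1 ((rr_inl ht).trans (rr_inl ht').symm)
          subst htt
          have hq := epath_end ht ht'
          simp only [esrc, Sum.inl.injEq, Prod.mk.injEq, true_and] at hq
          rw [hq]
        | step A' B' f' C' a' D' b' => 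
          simp only [rr, List.cons.injEq, Prd.pop.injEq] at hr
          obtain ⟨⟨-, -, rfl⟩, -⟩ := hr
          have h1 : nvar a = 0 := hv.2.2
          have h2 : 1 ≤ nvar a := hv'.2.2.1
          omega
        | stopC A' C' a' => simp [rr] at hr
        | stepC A' C' a' D' => simp [rr] at hr
      | step A B f C a D b =>
        cases e' with
        | unitY A' B' b' => exact absurd (lab hp).2 (by simp)
        | unitX A' B' C' b' => exact absurd (lab hp).2 (by simp)
        | pushY A' B' f' b' => simp [rr, rr_inl ht'] at hr
        | stop A' B' f' C' a' b' => 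
          simp only [rr, List.cons.injEq, Prd.pop.injEq] at hr
          obtain ⟨⟨-, -, rfl⟩, -⟩ := hr
          have h1 : nvar a = 0 := hv'.2.2
          have h2 : 1 ≤ nvar a := hv.2.2.1
          omega
        | step A' B' f' C' a' D' b' =>
          obtain ⟨h1, h2⟩ := lab hp
          simp only [Prd.push.injEq] at h2
          obtain ⟨rfl, rfl, rfl⟩ := h2
          simp only [rr, List.cons.injEq, Prd.pop.injEq, true_and] at hr
          obtain ⟨⟨rfl, rfl⟩, hfl⟩ := hr
          have htt := ih ht ht' h1 (flat_inj _ hv.2.2.1 _ _ hfl)
          subst htt
          have hq := epath_end ht ht'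
          simp only [esrc, Sum.inr.injEq, Prod.mk.injEq, true_and] at hq
          rw [hq.1, hq.2]
        | stopC A' C' a' => simp [rr] at hr
        | stepC A' C' a' D' => simp [rr] at hr
      | stopC A C a =>
        cases e' with
        | unitY A' B' b' => simp [rr, rr_inl ht'] at hr
        | unitX A' B' C' b' => 
          have h1 : pp t = pp t' ++ [Prd.ctx A' [Sym.var B']] := by
            have : pp t ++ [] = pp t' ++ [Prd.ctx A' [Sym.var B']] := hp
            rw [← this, List.append_nil]
          exact absurd h1 (last_push ht rfl _ _ _)
        | pushY A' B' f' b' => simp [rr, rr_inl ht'] at hr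
        | stop A' B' f' C' a' b' => simp [rr] at hr
        | step A' B' f' C' a' D' b' => simp [rr] at hr
        | stopC A' C' a' =>
          have h1 : pp t = pp t' := by simpa [pp, elb] using hp
          simp only [rr, List.cons.injEq, Prd.ctx.injEq, and_true] at hr
          obtain ⟨rfl, rfl⟩ := hr
          have htt := ih ht ht' h1 ((rr_inl ht).trans (rr_inl ht').symm)
          subst htt
          have hq := epath_end ht ht'
          simp only [esrc, Sum.inl.injEq, Prod.mk.injEq, and_true] at hq
          rw [hq]
        | stepC A' C' a' D' => 
          simp only [rr, List.cons.injEq, Prd.ctx.injEq] at hr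
          obtain ⟨⟨-, rfl⟩, -⟩ := hr
          have h1 : nvar a = 0 := hv.2.2
          have h2 : 1 ≤ nvar a := hv'.2.2.1
          omega
      | stepC A C a D =>
        cases e' with
        | unitY A' B' b' => simp [rr, rr_inl ht'] at hr
        | unitX A' B' C' b' => 
          have h1 : pp t = pp t' ++ [Prd.ctx A' [Sym.var B']] := by
            have : pp t ++ [] = pp t' ++ [Prd.ctx A' [Sym.var B']] := hp
            rw [← this, List.append_nil]
          exact absurd h1 (last_push ht rfl _ _ _)
        | pushY A' B' f' b' => simp [rr, rr_inl ht'] at hr
        | stop A' B' f' C' a' b' => simp [rr] at hr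
        | step A' B' f' C' a' D' b' => simp [rr] at hr
        | stopC A' C' a' => 
          simp only [rr, List.cons.injEq, Prd.ctx.injEq] at hr
          obtain ⟨⟨-, rfl⟩, -⟩ := hr
          have h1 : nvar a = 0 := hv'.2.2
          have h2 : 1 ≤ nvar a := hv.2.2.1
          omega
        | stepC A' C' a' D' =>
          have h1 : pp t = pp t' := by simpa [pp, elb] using hp
          simp only [rr, List.cons.injEq, Prd.ctx.injEq] at hr
          obtain ⟨⟨rfl, rfl⟩, hfl⟩ := hr
          have htt := ih ht ht' h1 (flat_inj _ hv.2.2.1 _ _ hfl)
          subst htt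
          have hq := epath_end ht ht'
          simp only [esrc, Sum.inr.injEq, Prod.mk.injEq, and_true] at hq
          rw [hq.1, hq.2]

open Classical in
/-- the productions of the second phase -/
private noncomputable def isR {G : Grammar} (P : Set G.V) : Prd G → Bool
  | Prd.ctx A _ => decide (A ∈ P)
  | Prd.push _ _ _ => false
  | Prd.pop _ _ _ => true

private theorem pp_no {G : Grammar} {P : Set G.V} {l : List (Edge G)} {q : St G} (h : EPath G P l q) :
    ∀ x ∈ pp l, isR P x = false := by
  induction h with
  | nil => intro x hx; simp [pp] at hx
  | @cons w e hv _ ih =>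
    intro x hx
    simp only [pp, List.mem_append] at hx
    rcases hx with hx | hx
    · exact ih x hx
    · cases e with
      | unitY A B b =>
        rw [List.mem_singleton.1 hx]
        simp [isR, hv.2]
      | unitX A B C b =>
        rw [List.mem_singleton.1 hx]
        simp [isR, hv.2]
      | pushY A B f b => rw [List.mem_singleton.1 hx]; rfl
      | stop A B f C a b => rw [List.mem_singleton.1 hx]; rfl
      | step A B f C a D b => rw [List.mem_singleton.1 hx]; rfl
      | stopC A C a => cases hx
      | stepC A C a D => cases hx

private theorem rr_yes {G : Grammar} {P : Set G.V} {l : List (Edge G)} {q : St G} (h : EPath G P l q) :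
    ∀ x ∈ rr l, isR P x = true := by
  induction h with
  | nil => intro x hx; simp [rr] at hx
  | @cons w e hv _ ih =>
    intro x hx
    cases e with
    | unitY A B b => exact ih x hx
    | unitX A B C b => exact ih x hx
    | pushY A B f b => exact ih x hx
    | stop A B f C a b =>
      simp only [rr, List.mem_singleton] at hx
      rw [hx]; rfl
    | step A B f C a D b =>
      simp only [rr, List.mem_cons, List.mem_flatten, List.mem_replicate] at hx
      rcases hx with rfl | ⟨m, ⟨-, rfl⟩, hm⟩
      · rfl
      · exact ih x hm
    | stopC A C a =>
      simp only [rr, List.mem_singleton] at hx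
      rw [hx]
      simp [isR, hv.2.1]
    | stepC A C a D =>
      simp only [rr, List.mem_cons, List.mem_flatten, List.mem_replicate] at hx
      rcases hx with rfl | ⟨m, ⟨-, rfl⟩, hm⟩
      · simp [isR, hv.2.1]
      · exact ih x hm

private theorem filt {G : Grammar} {P : Set G.V} {l : List (Edge G)} {q : St G} (h : EPath G P l q) :
    (pp l ++ rr l).filter (fun x => !isR P x) = pp l ∧ (pp l ++ rr l).filter (isR P) = rr l := by
  constructor
  · rw [List.filter_append, List.filter_eq_self.2 (fun x hx => by simp [pp_no h x hx]),
      List.filter_eq_nil_iff.2 (fun x hx => by simp [rr_yes h x hx]), List.append_nil]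
  · rw [List.filter_append, List.filter_eq_nil_iff.2 (fun x hx => by simp [pp_no h x hx]),
      List.filter_eq_self.2 (fun x hx => by simp [rr_yes h x hx]), List.nil_append]

theorem split_enc {G : Grammar} {P : Set G.V} {l l' : List (Edge G)} {q q' : St G} (hl : EPath G P l q)
    (hl' : EPath G P l' q') (h : pp l ++ rr l = pp l' ++ rr l') : pp l = pp l' ∧ rr l = rr l' := by
  constructor
  · rw [← (filt hl).1, h, (filt hl').1]
  · rw [← (filt hl).2, h, (filt hl').2]

end Pool.Agent.Lib.UCY
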