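import Pool.Agent.Lib.UCX.Smn
import Pool.Agent.Lib.UCX.Exa
import Pool.Agent.Lib.UCY.Fin
import Pool.Agent.Lib.UCY.Inj
import Pool.Agent.Lib.UCY.Cmp

/-!
# UCY: assembly
-/

set_option autoImplicit false

namespace Pool.Agent.Lib.UCY

open Pool.Agent.Lib.UCX

/-- the system of a grammar -/
def sysOf (G : Grammar) (P : Set G.V) : Sys where
  Q := St G
  E := {e : Edge G // Valid G P e}
  finQ := by
    have := G.finV
    infer_instance
  finE := (finite_edges G P).to_subtype
  q0 := Sum.inl (G.start, false)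
  src := fun e => esrc e.1
  tgt := fun e => etgt e.1
  b := fun e => eb e.1
  d := fun e => ed e.1
  fin := {q | ∃ B ∈ P, ∃ b, q = Sum.inr (B, B, b)}

private theorem val_eq (G : Grammar) (P : Set G.V) (w : List (sysOf G P).E) :
    val (sysOf G P) w = eval (w.map Subtype.val) := by
  induction w with
  | nil => rfl
  | cons e w ih =>
    show (sysOf G P).b e * val (sysOf G P) w + (sysOf G P).d e = eb e.1 * eval (w.map Subtype.val) + ed e.1
    rw [ih]
    rfl

private theorem to_epath (G : Grammar) (P : Set G.V) {q' : (sysOf G P).Q} {w : List (sysOf G P).E}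
    (h : Path (sysOf G P) (sysOf G P).q0 w q') : EPath G P (w.map Subtype.val) q' := by
  induction h with
  | nil => exact EPath.nil
  | cons e _ ih => exact EPath.cons e.1 e.2 ih

private theorem of_epath (G : Grammar) (P : Set G.V) {q : St G} {l : List (Edge G)}
    (h : EPath G P l q) : ∃ w : List (sysOf G P).E, w.map Subtype.val = l ∧
      Path (sysOf G P) (sysOf G P).q0 w q := by
  induction h with
  | nil => exact ⟨[], rfl, Path.nil _⟩
  | cons e he _ ih =>
    obtain ⟨w, hw, hp⟩ := ih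
    refine ⟨(⟨e, he⟩ : (sysOf G P).E) :: w, ?_, ?_⟩
    · show e :: w.map Subtype.val = _
      rw [hw]
    · exact Path.cons (S := sysOf G P) ⟨e, he⟩ hp

theorem main (G : Grammar) (P : Set G.V) (hk : OneKind G P) (hu : Unambiguous G) :
    Lang G ≠ {n | Composite n} := by
  intro hL
  refine sys_main (sysOf G P) ?_ ?_
  · rintro q q' l l' ⟨B, hB, b, rfl⟩ ⟨B', hB', b', rfl⟩ hl hl' hv
    have h1 := to_epath G P hl
    have h2 := to_epath G P hl'
    have h3 := sound1 h1 _ _ (sound2 h1 _ _ _ rfl)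
    have h4 := sound1 h2 _ _ (sound2 h2 _ _ _ rfl)
    rw [val_eq, val_eq] at hv
    rw [hv] at h3
    obtain ⟨h5, h6⟩ := split_enc h1 h2 (hu _ _ _ h3 h4)
    exact (List.map_injective_iff.2 Subtype.val_injective) (inj_enc h1 h2 h5 h6)
  · rw [← hL]
    ext n
    constructor
    · rintro ⟨q, ⟨B, hB, b, rfl⟩, l, hl, rfl⟩
      have h1 := to_epath G P hl
      rw [val_eq]
      exact ⟨_, sound1 h1 _ _ (sound2 h1 _ _ _ rfl)⟩
    · rintro ⟨m, hm⟩
      obtain ⟨B, hB, l', b, hl', rfl⟩ := comp1 hk hu EPath.nil hm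
      obtain ⟨w, rfl, hw⟩ := of_epath G P hl'
      exact ⟨_, ⟨B, hB, b, rfl⟩, w, hw, val_eq G P w⟩

theorem oneKind_G0 : ∃ P : Set G0.V, OneKind G0 P := by
  obtain ⟨P, hP⟩ := Pool.Agent.Lib.UCX.oneKind_G0
  exact ⟨P, ⟨fun A α h => Or.inl (hP.ctx A α h), hP.push, hP.pop⟩⟩

end Pool.Agent.Lib.UCY
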