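import Pool.Agent.Lib.UCX.Gdef

/-!
# MP_aa59b8_lc: one-kind push-pop grammars, general form
-/

set_option autoImplicit false

namespace Pool.Agent.Lib.UCY

open Pool.Agent.Lib.UCX

/-- One-kind push-pop grammars: for the set `P` of variables, outside `P` there are only productions
`A → B` and `A → B_f`; the variables in `P` have no productions `A → B_f`, and for each of their
productions `A → α`, `A_f → α` there is some `B` in `P` such that all symbols of `α` are `0` or `B`. -/
structure OneKind (G : Grammar) (P : Set G.V) : Prop where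
  ctx : ∀ A α, (A, α) ∈ G.ctx → (A ∉ P ∧ ∃ B, α = [Sym.var B]) ∨
    (A ∈ P ∧ ∃ B ∈ P, ∀ s ∈ α, s = Sym.zero ∨ s = Sym.var B)
  push : ∀ A B f, (A, B, f) ∈ G.push → A ∉ P
  pop : ∀ A f α, (A, f, α) ∈ G.pop → A ∈ P ∧ ∃ B ∈ P, ∀ s ∈ α, s = Sym.zero ∨ s = Sym.var B

end Pool.Agent.Lib.UCY
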