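import Pool.Agent.Lib.UCX.Swp

/-!
# UCY: all copies are equal, non-popping productions
-/

set_option autoImplicit false

namespace Pool.Agent.Lib.UCY

open Pool.Agent.Lib.UCX

private theorem flat_inj {β : Type} {k : ℕ} (hk : 1 ≤ k) {m m' : List β}
    (h : (List.replicate k m).flatten = (List.replicate k m').flatten) : m = m' := by
  have hl := congrArg List.length h
  rw [List.length_flatten, List.length_flatten, List.map_replicate, List.map_replicate,
    List.sum_replicate, List.sum_replicate, smul_eq_mul, smul_eq_mul] at hl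
  have hlen : m.length = m'.length := Nat.eq_of_mul_eq_mul_left (by omega) hl
  obtain ⟨j, rfl⟩ : ∃ j, k = j + 1 := ⟨k - 1, by omega⟩
  rw [List.replicate_succ, List.replicate_succ, List.flatten_cons, List.flatten_cons] at h
  exact (List.append_inj h hlen).1

theorem ctx_downC {G : Grammar} {B : G.V} {α : List (Sym G.V)} {C : G.V} {σ : List G.I}
    (hctx : (B, α) ∈ G.ctx) (hα : ∀ s ∈ α, s = Sym.zero ∨ s = Sym.var C) (hv : 1 ≤ nvar α)
    (h : Ctx G B σ) : Ctx G C σ := by
  obtain ⟨g, β, δ, hg, hrun⟩ := h
  refine ⟨fun m => g (Prd.ctx B α :: (List.replicate (nvar α) m).flatten), β * nvar α,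
    β * nzero α + δ, ?_, ?_⟩
  · intro m m' hm
    have h1 := hg hm
    rw [List.cons.injEq] at h1
    exact flat_inj hv h1.2
  · intro m n hm
    have h1 := fill σ C α hα (List.replicate (nvar α) (m, n)) (by rw [List.length_replicate])
      (fun x hx => by
        have hx' := List.eq_of_mem_replicate hx
        rw [hx']
        exact hm)
    rw [List.map_replicate, List.map_replicate, List.sum_replicate, smul_eq_mul] at h1
    have h2 : Run G (Prd.ctx B α :: (List.replicate (nvar α) m).flatten) [some (B, σ)]
        (nvar α * n + nzero α) :=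
      Run.ctx hctx (by rw [List.append_nil]; exact h1)
    have h3 := hrun _ _ h2
    have e : β * (nvar α * n + nzero α) + δ = β * nvar α * n + (β * nzero α + δ) := by ring
    rw [e] at h3
    exact h3

theorem sameC {G : Grammar} (hu : Unambiguous G) {B : G.V} {α : List (Sym G.V)} {C : G.V}
    {σ : List G.I} (hctx : (B, α) ∈ G.ctx) (hα : ∀ s ∈ α, s = Sym.zero ∨ s = Sym.var C)
    (hv : 2 ≤ nvar α) (h : Ctx G B σ) {m1 m2 : List (Prd G)} {n1 n2 : ℕ}
    (h1 : Run G m1 [some (C, σ)] n1) (h2 : Run G m2 [some (C, σ)] n2) : n1 = n2 := by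
  obtain ⟨g, β, δ, hg, hrun⟩ := h
  have key : ∀ ms : List (List (Prd G) × ℕ), ms.length = nvar α →
      (∀ x ∈ ms, Run G x.1 [some (C, σ)] x.2) →
      Run G (g (Prd.ctx B α :: (ms.map Prod.fst).flatten)) [some (G.start, [])]
        (β * ((ms.map Prod.snd).sum + nzero α) + δ) := by
    intro ms hl hms
    exact hrun _ _ (Run.ctx hctx (by rw [List.append_nil]; exact fill σ C α hα ms hl hms))
  have ka := key ((m1, n1) :: (m2, n2) :: List.replicate (nvar α - 2) (m1, n1))
    (by simp only [List.length_cons, List.length_replicate]; omega)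
    (by
      intro x hx
      rw [List.mem_cons, List.mem_cons] at hx
      rcases hx with rfl | rfl | hx
      · exact h1
      · exact h2
      · rw [List.eq_of_mem_replicate hx]
        exact h1)
  have kb := key ((m2, n2) :: (m1, n1) :: List.replicate (nvar α - 2) (m1, n1))
    (by simp only [List.length_cons, List.length_replicate]; omega)
    (by
      intro x hx
      rw [List.mem_cons, List.mem_cons] at hx
      rcases hx with rfl | rfl | hx
      · exact h2
      · exact h1
      · rw [List.eq_of_mem_replicate hx]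
        exact h1)
  have hsum : (((m2, n2) :: (m1, n1) :: List.replicate (nvar α - 2) (m1, n1)).map Prod.snd).sum =
      (((m1, n1) :: (m2, n2) :: List.replicate (nvar α - 2) (m1, n1)).map Prod.snd).sum := by
    simp only [List.map_cons, List.sum_cons]
    omega
  rw [hsum] at kb
  have h3 := hg (hu _ _ _ ka kb)
  rw [List.cons.injEq] at h3
  have h4 := h3.2
  simp only [List.map_cons, List.flatten_cons] at h4
  rcases List.append_eq_append_iff.1 h4 with ⟨t, ht, -⟩ | ⟨t, ht, -⟩
  · rw [ht] at h2
    exact (run_prefix h1 h2).2.symm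
  · rw [ht] at h1
    exact (run_prefix h2 h1).2

end Pool.Agent.Lib.UCY
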